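import Pool.Agent.Y16.RA.Fam

/-!
# The minimum of the Rains function and Tr R are independent

For non-chiral EHI data with gauge group `SU(2)` and without gauge singlets the pairs
`(L_{h,min}, Tr R)` are exactly the pairs of real numbers with first entry at most `0`.
The definitions are those of the starting module of helper754.
-/

set_option autoImplicit false

namespace Pool.Agent.Results.MP_321bb7_mp.AllPairs

open Pool.Agent.H754R3.Rains

/-- **All pairs `(L_{h,min}, Tr R)` with `L_{h,min} ≤ 0` occur.** The set of the pairs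
`(L_{h,min}, Tr R)` of the non-chiral EHI data with gauge group `SU(2)` and without gauge singlets
is `(-∞, 0] × ℝ`; in particular for every `m < 0` and every real `t`, positive or not, there is such
a datum with `L_{h,min} = m` and `Tr R = t`. -/
theorem result :
    {p : ℝ × ℝ | ∃ D : Datum, D.NonChiral ∧ D.NoSinglets ∧ IsLeast (Set.range D.rains) p.1 ∧
      D.trR = p.2} = Set.Iic 0 ×ˢ Set.univ := by
  ext ⟨m, t⟩
  constructor
  · rintro ⟨D, -, -, h, -⟩
    refine ⟨?_, trivial⟩
    have h1 : m ≤ D.rains 0 := h.2 ⟨0, rfl⟩
    have h2 : D.rains 0 = 0 := by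
      unfold Datum.rains
      simp [theta]
    rw [h2] at h1
    exact h1
  · rintro ⟨hm, -⟩
    obtain ⟨D, h1, h2, -, h4, h5⟩ := Pool.Agent.Y16.RA.prescribed m t hm
    exact ⟨D, h1, h2, h4, h5⟩

end Pool.Agent.Results.MP_321bb7_mp.AllPairs
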